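import Pool.Agent.H5.BHG.Stmts

/-!
Board bhg, row YSB: the part `yy` is a subgame which `!q.1` cannot leave.
-/

set_option autoImplicit false

namespace Pool.BHG

open Filter TMLib Pool.PG Pool.DPG

theorem ysb_thm : YSBStmt := by
  intro g X q hX
  obtain ⟨hd1, hd2⟩ := dsb_all g (!q.1) X (dif g X q.2) hX
  have hf := fsb_thm.2.1
  have ha := (atl_thm g (!q.1) X (dif g X q.2) hX.1).2
  have e : fs g (yy g X q) = fs g X \ fs g (att (!q.1) g X (dif g X q.2)) := hf g X _
  refine ⟨hd1, ?_, ?_, ?_⟩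
  · rw [e]
    exact Finset.sdiff_subset
  · intro v hv
    rw [e, Finset.mem_sdiff] at hv
    by_contra h
    apply hv.2
    apply ha.1
    rw [Finset.mem_inter, hf g X q.2, Finset.mem_sdiff]
    exact ⟨hv.1, hv.1, h⟩
  · intro v hv ho
    apply hd2 v hv
    cases h1 : own g v <;> cases h2 : q.1 <;> simp_all

end Pool.BHG
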